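import Pool.Agent.Y120.R.XY
import Pool.Agent.Y120.H.Fml
import Pool.Agent.Q207.AF.Diag

/-!
# The closure of the period point at almost all integral points of arbitrary families of varieties

Let `X_i → S_i`, `i ≤ k`, be arbitrary families of smooth projective varieties over open parts `S_i` of the line over a number field
`K`, near a rational point `x = 0`, where the family may degenerate. Near `0` the entries of the period matrix `P_i(x)` are
polynomials with complex coefficients (the periods of the limit) in `log x` and in G-functions with rational coefficients. We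
prove: for almost all integral points `t` (with a power saving, in all boxes, uniformly in the period matrices and in `K`) each relation
of degree at most `δ` over `K` between the periods of the fibres at `1 / t_1, …, 1 / t_k` is the value at `x = 1 / t` of a relation
of degree at most `δ` over `K[x]` which holds identically. In particular it vanishes on the fibre over `1 / t` of the Zariski closure of
the graph of the period map: up to degree `δ` the closure of the period point is this fibre. The degrees of the relations and of the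
field may grow to infinity with `t`.
-/

set_option autoImplicit false

open PowerSeries Filter

namespace Pool.Agent.Results.MP_5591bc_ag.ArbitraryFamilies

/-! ### Families of G-functions -/

/-- an integer polynomial as a power series with rational coefficients -/
noncomputable def toQ (P : Polynomial ℤ) : PowerSeries ℚ := ((P.map (Int.castRingHom ℚ) : Polynomial ℚ) : PowerSeries ℚ)

/-- the power series `P(u^e)` -/
noncomputable def atPow (e : ℕ) (P : Polynomial ℤ) : PowerSeries ℂ :=
  ((Polynomial.expand ℂ e (P.map (Int.castRingHom ℂ)) : Polynomial ℂ) : PowerSeries ℂ)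

/-- the matrices `G_s` over `ℤ[x]` with `T^s y^(s) = G_s y` for all solutions `y` of `T y' = A y` -/
noncomputable def iter {r : ℕ} (T : Polynomial ℤ) (A : Fin r → Fin r → Polynomial ℤ) : ℕ → Fin r → Fin r → Polynomial ℤ
  | 0 => fun i j => if i = j then 1 else 0
  | s + 1 => fun i j => T * Polynomial.derivative (iter T A s i j) + ∑ l, iter T A s i l * A l j -
      (s : Polynomial ℤ) * (Polynomial.derivative T * iter T A s i j)

/-- The system `T y' = A y` has a fundamental matrix of solutions of the form `u^(-M) ∑_n Φ_n(u) (log u)^n` with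
`u^e = x` and convergent power series `Φ_n`: the point `0` is regular or a regular singularity with rational
exponents. -/
def QuasiUnipotent {r : ℕ} (T : Polynomial ℤ) (A : Fin r → Fin r → Polynomial ℤ) : Prop :=
  ∃ (e M : ℕ) (K : ℝ) (Φ : Matrix (Fin r) (Fin r) (Polynomial (PowerSeries ℂ))), 1 ≤ e ∧ Φ.det ≠ 0 ∧
    (∀ i j n m, ‖coeff m ((Φ i j).coeff n)‖ ≤ K ^ (m + 1)) ∧
    ∀ i j n, atPow e T * (X * PowerSeries.derivative ℂ ((Φ i j).coeff n) +
        ((n : PowerSeries ℂ) + 1) * (Φ i j).coeff (n + 1) - (M : PowerSeries ℂ) * (Φ i j).coeff n) =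
      (e : PowerSeries ℂ) * X ^ e * ∑ l, atPow e (A i l) * (Φ l j).coeff n

/-- `h_1, ..., h_r` are G-functions with rational coefficients which solve the differential system `T y' = A y`, with
the conditions of Siegel and Galochkin, and `0` is a regular point or a regular singularity with rational exponents of
the system. -/
structure GFamily {r : ℕ} (T : Polynomial ℤ) (A : Fin r → Fin r → Polynomial ℤ) (h : Fin r → PowerSeries ℚ) : Prop where
  /-- the denominator is not zero -/
  T_ne : T ≠ 0
  /-- the differential equations -/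
  ode : ∀ i, toQ T * PowerSeries.derivative ℚ (h i) = ∑ j, toQ (A i j) * h j
  /-- the coefficients have geometric growth -/
  size : ∃ C : ℝ, ∀ i m, |((coeff m (h i) : ℚ) : ℝ)| ≤ C ^ (m + 1)
  /-- the common denominators of the coefficients have geometric growth -/
  den : ∃ C : ℝ, ∀ m : ℕ, ∃ d : ℕ, 0 < d ∧ (d : ℝ) ≤ C ^ (m + 1) ∧ ∀ i, ∀ j ≤ m, ∃ a : ℤ, (d : ℚ) * coeff j (h i) = a
  /-- Galochkin's condition: the common denominators of the matrices `G_s / s!` have geometric growth -/
  galochkin : ∃ C : ℝ, ∀ m : ℕ, ∃ d : ℕ, 0 < d ∧ (d : ℝ) ≤ C ^ (m + 1) ∧ ∀ s ≤ m, ∀ i j,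
    ∃ H : Polynomial ℤ, (d : Polynomial ℤ) * iter T A s i j = (s.factorial : Polynomial ℤ) * H
  /-- the local exponents at `0` are rational and the singularity is regular -/
  regular : QuasiUnipotent T A

/-! ### Relations between periods -/

section relations
variable {k : ℕ} {r n : Fin k → ℕ}

/-- The data of the period matrices of the `k` families: the polynomial `P i a` in `log x` and in the functions `h_{i,l}(x)` is the entry at
the place `a` of the period matrix of the `i`-th family. -/
abbrev Matrices (r n : Fin k → ℕ) : Type := ∀ i, Fin (n i) → MvPolynomial (Option (Fin (r i))) ℂ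

/-- the polynomials have degree at most `e` -/
def HasDegree (e : ℕ) (P : Matrices r n) : Prop := ∀ i a, (P i a).totalDegree ≤ e

/-- The entries of the period matrices of the `k` families at the points `x_i = 1 / s_i`: the polynomials `P i a` in `log s_i` and in the
values `h_{i,l}(1 / s_i)`. -/
noncomputable def periods (h : ∀ i, Fin (r i) → PowerSeries ℚ) (P : Matrices r n) (s : Fin k → ℝ) (v : Σ i, Fin (n i)) : ℂ :=
  MvPolynomial.aeval (fun o : Option (Fin (r v.1)) => o.elim ((Real.log (s v.1) : ℝ) : ℂ)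
    fun l => ((∑' m : ℕ, ((coeff m (h v.1 l) : ℚ) : ℝ) * (1 / s v.1) ^ m : ℝ) : ℂ)) (P v.1 v.2)

/-- The polynomial `F` over `K[x_1, …, x_k]` in the entries of the period matrices is a relation between the period functions: it
vanishes identically near `x = 0`. `φ` is the embedding of the number field `K` into `ℂ`. -/
def HoldsIdentically {K : Type} [Field K] (φ : K →+* ℂ) (h : ∀ i, Fin (r i) → PowerSeries ℚ) (P : Matrices r n)
    (F : MvPolynomial (Σ i, Fin (n i)) (MvPolynomial (Fin k) K)) : Prop :=
  ∃ τ : ℝ, ∀ s : Fin k → ℝ, (∀ i, τ < s i) →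
    MvPolynomial.eval₂ (MvPolynomial.eval₂Hom φ fun i => 1 / (s i : ℂ)) (periods h P s) F = 0

/-- The statement of degree `δ` over `K` at the point `x = 1 / t`: each polynomial relation of degree at most `δ` over `K` between the
periods of the fibres at `1 / t_i` is the value at `x = 1 / t` of a relation of degree at most `δ` over `K[x]` which holds
identically. -/
def DegreeStatement (δ : ℕ) {K : Type} [Field K] (φ : K →+* ℂ) (h : ∀ i, Fin (r i) → PowerSeries ℚ) (P : Matrices r n)
    (t : Fin k → ℕ) : Prop :=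
  ∀ R : MvPolynomial (Σ i, Fin (n i)) K, R.totalDegree ≤ δ → MvPolynomial.eval₂ φ (periods h P fun i => (t i : ℝ)) R = 0 →
    ∃ F : MvPolynomial (Σ i, Fin (n i)) (MvPolynomial (Fin k) K), F.totalDegree ≤ δ ∧ HoldsIdentically φ h P F ∧
      MvPolynomial.map (MvPolynomial.eval fun i => 1 / (t i : K)) F = R

/-- the set of the integral points `t` for which the statement of degree `δ` over the number field `K` does not hold at `x = 1 / t` -/
def Exceptions (δ : ℕ) (K : IntermediateField ℚ ℂ) (h : ∀ i, Fin (r i) → PowerSeries ℚ) (P : Matrices r n) : Set (Fin k → ℕ) :=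
  {t | ¬ DegreeStatement δ (algebraMap K ℂ) h P t}

end relations

/-- `K` is a number field of degree at most `D` -/
def HasDegreeAtMost (D : ℕ) (K : IntermediateField ℚ ℂ) : Prop := FiniteDimensional ℚ K ∧ Module.finrank ℚ K ≤ D

/-- in every box `∏ (x_i, x_i + N]` the set `E` has at most `C N^(k-1) ∑ (1 + N / (x_i + N)^c)` elements -/
def Rare {k : ℕ} (c C : ℝ) (E : Set (Fin k → ℕ)) : Prop :=
  ∀ (x : Fin k → ℕ) (N : ℕ), 1 ≤ N → (({t : Fin k → ℕ | (∀ i, x i < t i ∧ t i ≤ x i + N) ∧ t ∈ E}.ncard : ℕ) : ℝ) ≤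
    C * (N : ℝ) ^ (k - 1) * ∑ i, (1 + N / ((x i : ℝ) + N) ^ c)

theorem iter_eq {r : ℕ} (T : Polynomial ℤ) (A : Fin r → Fin r → Polynomial ℤ) (s : ℕ) :
    iter T A s = Pool.Agent.Y120.GH.itm T A s := by
  induction s with
  | zero => rfl
  | succ s ih =>
    funext i j
    rw [iter, Pool.Agent.Y120.GH.itm, ih]

theorem qu_eq {r : ℕ} {T : Polynomial ℤ} {A : Fin r → Fin r → Polynomial ℤ} (h : QuasiUnipotent T A) :
    Pool.Agent.Y120.GH.QU0 T A := by
  obtain ⟨e, M, K, Φ, he, hdet, hc, heq⟩ := h
  have he0 : e ≠ 0 := by omega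
  refine ⟨e, he0, M, K, Φ, hc, fun i j n => ?_, hdet⟩
  have h1 := heq i j n
  simp only [atPow] at h1
  rw [Pool.Agent.Y120.GH.expand_poly he0]
  simp only [Pool.Agent.Y120.GH.expand_poly he0]
  exact h1

theorem fam {r : ℕ} {T : Polynomial ℤ} {A : Fin r → Fin r → Polynomial ℤ} {h : Fin r → PowerSeries ℚ}
    (hG : GFamily T A h) (δ : ℕ) : Pool.Agent.Y120.R.Fam δ h :=
  ⟨hG.size, Pool.Agent.Y120.GH.family_main hG.T_ne hG.ode hG.size hG.den (by
    obtain ⟨C, hC⟩ := hG.galochkin
    refine ⟨C, fun m => ?_⟩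
    obtain ⟨d, h1, h2, h3⟩ := hC m
    refine ⟨d, h1, h2, fun s hs i' j' => ?_⟩
    rw [← iter_eq]
    exact h3 s hs i' j') (qu_eq hG.regular) δ⟩

theorem pv_eq {k : ℕ} {r n : Fin k → ℕ} (h : ∀ i, Fin (r i) → PowerSeries ℚ) (P : Matrices r n) (s : Fin k → ℝ) :
    Pool.Agent.Y120.R.pv P h s = periods h P s := by
  funext v
  unfold Pool.Agent.Y120.R.pv Pool.Agent.Y120.R.pf periods
  rw [MvPolynomial.aeval_rename]
  congr 1

/-- Let `h_i`, `i ≤ k`, be families of G-functions over `ℚ` (with the conditions of Siegel and Galochkin, regular singular with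
rational exponents at `0`). (1) For all `δ`, `e`, `D` there are `c > 0` and `C` such that for all period matrices `P_i` (with entries
polynomials of degree at most `e`, with complex coefficients, in `log x` and the `h_{i,l}(x)`), all number fields `K` of degree at
most `D` and all boxes `∏ (x_i, x_i + N]` the statement of degree `δ` over `K` holds at all but `C N^(k-1) ∑ (1 + N / (x_i + N)^c)` of the
points `1 / t`, `t` integral in the box. (2) For each `e` there are `D(N)` which tend to infinity and `ε(N)` which tend to zero such that for all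
these `P_i` and all number fields `K` of degree at most `D(N)` the statement of degree `D(N)` over `K` holds at all but `ε(N) N^k` of the
points `1 / t`, `1 ≤ t_i ≤ N`. -/
theorem result (k e : ℕ) (r n : Fin k → ℕ) (T : Fin k → Polynomial ℤ) (A : ∀ i, Fin (r i) → Fin (r i) → Polynomial ℤ)
    (h : ∀ i, Fin (r i) → PowerSeries ℚ) (hG : ∀ i, GFamily (T i) (A i) (h i)) :
    (∀ δ D : ℕ, ∃ c C : ℝ, 0 < c ∧ ∀ P : Matrices r n, HasDegree e P → ∀ K, HasDegreeAtMost D K →
      Rare c C (Exceptions δ K h P)) ∧
    ∃ (D : ℕ → ℕ) (ε : ℕ → ℝ), Tendsto D atTop atTop ∧ Tendsto ε atTop (nhds 0) ∧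
      ∀ P : Matrices r n, HasDegree e P → ∀ (N : ℕ) (K : IntermediateField ℚ ℂ), 1 ≤ N → HasDegreeAtMost (D N) K →
        (({t : Fin k → ℕ | (∀ i, 1 ≤ t i ∧ t i ≤ N) ∧ t ∈ Exceptions (D N) K h P}.ncard : ℕ) : ℝ) ≤ ε N * (N : ℝ) ^ k := by
  classical
  have hmain : ∀ δ D : ℕ, ∃ c C : ℝ, 0 < c ∧ ∀ P : Matrices r n, HasDegree e P → ∀ K, HasDegreeAtMost D K →
      Rare c C (Exceptions δ K h P) := by
    intro δ D
    obtain ⟨c, C, hc, -, hmain⟩ := Pool.Agent.Y120.R.relY (n := n) δ e D fun i => fam (hG i) (δ * e)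
    refine ⟨c, C, hc, fun P hP K hKK x N hN => ?_⟩
    obtain ⟨hK, hKD⟩ := hKK
    set E := {t : Fin k → ℕ | (∀ i, x i < t i ∧ t i ≤ x i + N) ∧ t ∈ Exceptions δ K h P} with hE
    have hfin : E.Finite := by
      refine (Set.finite_Iic (fun i : Fin k => x i + N)).subset ?_
      intro t ht i
      exact (ht.1 i).2
    rw [Set.ncard_eq_toFinset_card E hfin]
    refine hmain P hP K hKD x N hN _ fun t ht => ?_
    obtain ⟨hbox, hbad⟩ := hfin.mem_toFinset.1 ht
    refine ⟨hbox, ?_⟩
    by_contra hcon
    push Not at hcon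
    apply hbad
    intro R hR h0
    rw [← pv_eq] at h0
    obtain ⟨F, hF, ⟨τ, hτ⟩, hFR⟩ := hcon R hR h0
    refine ⟨F, hF, ⟨τ, fun s hs => ?_⟩, hFR⟩
    rw [← pv_eq]
    exact hτ s hs
  refine ⟨hmain, ?_⟩
  choose c C hc hcount using fun D => hmain D D
  obtain ⟨D, hD, hδ⟩ := Q207.AF.diag_seq
    (fun D N => C D * k * (1 / (N : ℝ) + 1 / (N : ℝ) ^ (c D))) (by
      intro D
      have h1 : Tendsto (fun N : ℕ => (1 : ℝ) / (N : ℝ)) atTop (nhds 0) := tendsto_one_div_atTop_nhds_zero_nat
      have h2 : Tendsto (fun N : ℕ => (1 : ℝ) / (N : ℝ) ^ (c D)) atTop (nhds 0) := by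
        have h3 := (tendsto_rpow_atTop (hc D)).comp tendsto_natCast_atTop_atTop
        have h4 := h3.inv_tendsto_atTop
        refine h4.congr fun N => ?_
        rw [one_div]
        rfl
      have h5 := (h1.add h2).const_mul (C D * k)
      rw [add_zero, mul_zero] at h5
      exact h5)
  refine ⟨D, _, hD, hδ, ?_⟩
  intro P hP N K hN hKK
  have h1 := hcount (D N) P hP K hKK (fun _ => 0) N hN
  have h2 : {t : Fin k → ℕ | (∀ i, 0 < t i ∧ t i ≤ 0 + N) ∧ t ∈ Exceptions (D N) K h P} =
      {t : Fin k → ℕ | (∀ i, 1 ≤ t i ∧ t i ≤ N) ∧ t ∈ Exceptions (D N) K h P} := by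
    ext t
    simp only [Set.mem_ofPred_eq, zero_add, Nat.lt_iff_add_one_le]
  rw [h2] at h1
  refine h1.trans (le_of_eq ?_)
  have hN0 : (N : ℝ) ≠ 0 := by
    have : N ≠ 0 := by omega
    exact_mod_cast this
  rw [Finset.sum_const, Finset.card_univ, Fintype.card_fin, nsmul_eq_mul, Nat.cast_zero, zero_add]
  rcases Nat.eq_zero_or_pos k with hk | hk
  · subst hk
    simp
  · obtain ⟨q, rfl⟩ : ∃ q, k = q + 1 := ⟨k - 1, by omega⟩
    have h3 : (N : ℝ) ^ (q + 1) = (N : ℝ) ^ q * N := pow_succ _ _
    rw [Nat.add_sub_cancel, h3]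
    have h4 : (1 : ℝ) + N / (N : ℝ) ^ (c (D N)) = N * (1 / (N : ℝ) + 1 / (N : ℝ) ^ (c (D N))) := by
      rw [mul_add, mul_one_div_cancel hN0, mul_one_div]
    rw [h4]
    ring

end Pool.Agent.Results.MP_5591bc_ag.ArbitraryFamilies
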