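import Pool.Agent.Q138.PS.VB
import Pool.Agent.Results.MP_5591bc_ag.CyclicCoverProducts

/-!
# Periods of the cyclic covers `C_{1/t}`, `t` close to `α P(n)`

Let `q ≥ 2` and let `F_i` be countably many families of cyclic covers of the line
`C_z : y ^ N = (x - z) ^ e₀ ∏ (x - a_j) ^ (e_j)`. Outside a set of real numbers of Hausdorff dimension at most
`q / (q + 1 / (q 2 ^ (q - 1)))` (that is `8 / 9` for `q = 2`) every `α > 0` has the following property. There is `η > 0` such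
that for ALL the families, ALL number fields `K` and ALL `δ` there are `r > 0` and `κ > 0` such that for all large `N` and ALL
integral polynomials `P` of degree `q` with positive leading coefficient and coefficients of size at most `N ^ η`: for all but
`N ^ (1 - κ)` of the `n ≤ N`, for EVERY integer `t ≥ 2` with `|t - ⌊α P(n)⌋| ≤ N ^ κ`: every relation of degree at most `δ` over
`K` between the periods of the curve `C_{1/t}` is the value at `z = 1 / t` of a relation over `K[z]` of degree at most `δ`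
between the periods of the family, valid for `|z| < r`.
-/

set_option autoImplicit false

namespace Pool.Agent.Results.MP_5591bc_ag.CyclicCoversAlongRealMultiples

open Finset Filter Topology
open Pool.Agent.Q138.PS
open IntermediateField
open CyclicCoverProducts (Family periods DegreeStatement exceptions)

/-- `t ≥ 2`, and the degree `δ` statement over `K` fails at the point `z = 1 / t` of the family `F`, or `1 / t ≥ r` -/
def Fails (F : Family) (K : IntermediateField ℚ ℂ) (r : ℝ) (δ t : ℕ) : Prop :=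
  2 ≤ t ∧ ¬ (1 / (t : ℝ) < r ∧ DegreeStatement K (periods fun _ : Fin 1 => F) r δ fun _ => 1 / (t : K))

theorem few (F : Family) (K : IntermediateField ℚ ℂ) (hK : NumberField K) (δ : ℕ) :
    ∃ r : ℝ, 0 < r ∧ r ≤ F.ρ ∧ ∃ c C : ℝ, 0 < c ∧ ∀ Y : ℕ, 1 ≤ Y → cn (Fails F K r δ) Y ≤ C * (Y : ℝ) ^ (1 - c) := by
  obtain ⟨r, hr, hρ, c, C, hc, h⟩ := CyclicCoverProducts.result (fun _ : Fin 1 => F) K δ
  refine ⟨r, hr, hρ 0, c, C, hc, fun Y hY => ?_⟩
  have h2 := h Y hY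
  rw [Nat.cast_one] at h2
  refine le_trans (cn_of_tuples _ _ _ (tup_finite Y _ ?_) ?_) h2
  · rintro m ⟨hm, -⟩
    exact (hm 0).2
  · rintro t - ht2 ⟨ht3, hbad⟩
    refine ⟨fun _ => ⟨ht3, ht2⟩, fun hF => hbad ⟨hF.1 0, hF.2⟩⟩

/-- **Theorem.** -/
theorem result (q : ℕ) (hq : 2 ≤ q) {ι : Type} [Countable ι] (F : ι → Family) :
    ∃ E : Set ℝ, dimH E ≤ ENNReal.ofReal (q / (q + 1 / ((q : ℝ) * 2 ^ (q - 1)))) ∧ ∀ α : ℝ, 0 < α → α ∉ E →
      ∃ η : ℝ, 0 < η ∧ ∀ (i : ι) (K : IntermediateField ℚ ℂ), NumberField K → ∀ δ : ℕ,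
      ∃ r : ℝ, 0 < r ∧ r ≤ (F i).ρ ∧ ∃ κ : ℝ, 0 < κ ∧ ∀ᶠ N : ℕ in atTop,
      ∀ P : Polynomial ℤ, P.natDegree = q → 0 < P.leadingCoeff → (∀ j, |((P.coeff j : ℤ) : ℝ)| ≤ (N : ℝ) ^ η) →
        (badW (Fails (F i) K r δ) ⌊(N : ℝ) ^ κ⌋₊ α P N : ℝ) ≤ (N : ℝ) ^ (1 - κ) := by
  classical
  have hA : Countable {x : ℂ // IsAlgebraic ℚ x} := (Algebraic.countable ℚ ℂ).to_subtype
  choose r hr hρ c C hc h using fun i : ι × {x : ℂ // IsAlgebraic ℚ x} × ℕ =>
    few (F i.1) ℚ⟮i.2.1.1⟯ (numN i.2.1.1 i.2.1.2) i.2.2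
  obtain ⟨E, hE, hg⟩ := exc_bad (ι := ι × {x : ℂ // IsAlgebraic ℚ x} × ℕ) q hq
    (fun i => Fails (F i.1) ℚ⟮i.2.1.1⟯ (r i) i.2.2)
  refine ⟨E, hE, fun α hα hαE => ?_⟩
  obtain ⟨η, hη, h1⟩ := hg α hα hαE
  refine ⟨η, hη, fun i K hK δ => ?_⟩
  obtain ⟨x, hx, rfl⟩ := primN K hK
  exact ⟨r (i, ⟨x, hx⟩, δ), hr _, hρ _, h1 (i, ⟨x, hx⟩, δ) (C _) (c _) (hc _) (h _)⟩

end Pool.Agent.Results.MP_5591bc_ag.CyclicCoversAlongRealMultiples
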