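import Pool.Agent.Q138.PS.VB
import Pool.Agent.Q138.PS.XS
import Pool.Agent.Results.MP_5591bc_ag.CyclicCoverProducts

/-!
# Periods of the cyclic covers `C_{1/t}`, `t` close to the powers of almost every real number

Let `F_i` be countably many families of cyclic covers of the line `C_z : y ^ N = (x - z) ^ e₀ ∏ (x - a_j) ^ (e_j)`. For almost
every real number `α > 1` (one null set) the following holds. For ALL the families, ALL number fields `K` and ALL `δ` there are
`r > 0` and `κ > 0` such that for all real algebraic `c > 0`, all integers `j`, all real `D` and all large `n`, for EVERY integer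
`t ≥ 2` with `|t - c n ^ j α ^ n| ≤ D (c n ^ j α ^ n) ^ κ`: every relation of degree at most `δ` over `K` between the periods of the
curve `C_{1/t}` is the value at `z = 1 / t` of a relation over `K[z]` of degree at most `δ` between the periods of the family, valid
for `|z| < r`.
-/

set_option autoImplicit false

namespace Pool.Agent.Results.MP_5591bc_ag.CyclicCoversNearPowers

open Finset Filter Topology MeasureTheory
open Pool.Agent.Q138.PS
open IntermediateField
open CyclicCoverProducts (Family periods DegreeStatement exceptions)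

/-- the degree `δ` statement over `K` holds at the point `z = 1 / t` of the family `F`, and `1 / t < r` -/
def HoldsAt (F : Family) (K : IntermediateField ℚ ℂ) (r : ℝ) (δ t : ℕ) : Prop :=
  1 / (t : ℝ) < r ∧ DegreeStatement K (periods fun _ : Fin 1 => F) r δ fun _ => 1 / (t : K)

theorem few (F : Family) (K : IntermediateField ℚ ℂ) (hK : NumberField K) (δ : ℕ) :
    ∃ r : ℝ, 0 < r ∧ r ≤ F.ρ ∧ CnFew fun t => 2 ≤ t ∧ ¬ HoldsAt F K r δ t := by
  obtain ⟨r, hr, hρ, c, C, hc, h⟩ := CyclicCoverProducts.result (fun _ : Fin 1 => F) K δ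
  refine ⟨r, hr, hρ 0, c, C, hc, fun Y hY => ?_⟩
  have h2 := h Y hY
  rw [Nat.cast_one] at h2
  refine le_trans (cn_of_tuples _ _ _ (tup_finite Y _ ?_) ?_) h2
  · rintro m ⟨hm, -⟩
    exact (hm 0).2
  · rintro t - ht2 ⟨ht3, hbad⟩
    refine ⟨fun _ => ⟨ht3, ht2⟩, fun hF => hbad ⟨hF.1 0, hF.2⟩⟩

/-- **Theorem.** -/
theorem result {ι : Type} [Countable ι] (F : ι → Family) :
    ∀ᵐ α : ℝ, 1 < α → ∀ (i : ι) (K : IntermediateField ℚ ℂ), NumberField K → ∀ δ : ℕ,
      ∃ r : ℝ, 0 < r ∧ r ≤ (F i).ρ ∧ ∃ κ : ℝ, 0 < κ ∧ ∀ c : ℝ, 0 < c → IsAlgebraic ℚ c → ∀ (j : ℤ) (D : ℝ),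
      ∀ᶠ n : ℕ in atTop, ∀ t : ℕ, 2 ≤ t → NearPow α c j D κ n t → HoldsAt (F i) K r δ t := by
  have hA : Countable {x : ℂ // IsAlgebraic ℚ x} := (Algebraic.countable ℚ ℂ).to_subtype
  choose r hr hρ h using fun i : ι × {x : ℂ // IsAlgebraic ℚ x} × ℕ =>
    few (F i.1) ℚ⟮i.2.1.1⟯ (numN i.2.1.1 i.2.1.2) i.2.2
  filter_upwards [pow_ae_cn (ι := ι × {x : ℂ // IsAlgebraic ℚ x} × ℕ)
    (fun i t => 2 ≤ t ∧ ¬ HoldsAt (F i.1) ℚ⟮i.2.1.1⟯ (r i) i.2.2 t)] with α h1 hα i K hK δ
  obtain ⟨x, hx, rfl⟩ := primN K hK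
  obtain ⟨κ, hκ, h2⟩ := h1 hα (i, ⟨x, hx⟩, δ) (h _)
  refine ⟨r (i, ⟨x, hx⟩, δ), hr _, hρ _, κ, hκ, fun c hc hca j D => ?_⟩
  filter_upwards [h2 c hc hca j D] with n hn t ht h3
  by_contra h4
  exact hn t (by omega) h3 ⟨ht, h4⟩

end Pool.Agent.Results.MP_5591bc_ag.CyclicCoversNearPowers
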