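import Pool.Agent.Q138.PS.WG
import Pool.Agent.Q138.AJ.R5591bc

/-!
# Periods of the fibres of families of elliptic curves at the points of number fields close to a given complex point

Let `a_j`, `b_j` be polynomials (`j = 1, …, n`) such that `a_j³ / b_j²` is not constant, and consider the product of the families
of elliptic curves `y² = x³ + a_j(s_j) x + b_j(s_j)` over `ℂ^n`.

Near a given point `z` of `ℂ^n` there may be infinitely many fibres over algebraic points whose periods satisfy unexpected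
(approximate) relations. We show that this only happens at a set of `z` of small Hausdorff dimension if one asks that the
algebraic points are good approximations of `z`.

* For given bounds `m` for the degree of the field, `d` and `A` for the relations, and `ε > 0` there is `B` such that for all
  `θ > 0`: outside a set of Hausdorff dimension at most `(2 m (n - 1) + ε) / θ` every `z` has the property that for all number
  fields `K ⊂ ℂ` of degree at most `m`, all coefficients from a countable set and all large `T` NO exceptional point `t ∈ K^n` of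
  height at most `T` satisfies `|t_j - z_j| ≤ T ^ (-θ)` for all `j`. For `n = 1` the dimension is at most `ε / θ`. (For `K = ℚ`
  and `θ < 2` almost every real `z` has such approximations `t` for all large `T`.)
* Outside a set of Hausdorff dimension ZERO every `z` has the property that for all number fields `K`, all coefficients from a
  countable set and all `d`, `A` there are `B` and `θ` such that for all large `T` no exceptional `t ∈ K^n` of height at most `T`
  satisfies `|t_j - z_j| ≤ T ^ (-θ)` for all `j`.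
-/

set_option autoImplicit false

namespace Pool.Agent.Results.MP_5591bc_ag.FibresNearGivenPoints

open Filter Pool.Agent.Q138.PS Pool.Agent.Q138.AJ.R5591bc

theorem mono {n g d : ℕ} {a b : Fin n → Polynomial ℂ} {F : Type} [Field F] [NumberField F] (ι : F →+* ℂ) (ξ : Fin g → ℂ)
    {S L : Set ℂ} {A B T T' : ℝ} (h1 : max 1 (2 ^ max B 0) ≤ T) (h2 : T ≤ T') (h3 : T' ≤ 2 * T) :
    Exceptional a b d F ι ξ S L A (max B 0 + 1) T ⊆ Exceptional a b d F ι ξ S L (max A 0) B T' := by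
  have h4 : 1 ≤ T := (le_max_left _ _).trans h1
  rintro t ⟨hp, e, v, hev, P, hP, hc, s₀, hs, hv⟩
  refine ⟨fun j => ⟨(hp j).1, ?_⟩, e, v, hev, P, hP, fun s => ?_, s₀, hs, hv.trans ?_⟩
  · obtain ⟨x, y, hy, hxy, he⟩ := (hp j).2
    exact ⟨x, y, hy, fun φ => ⟨(hxy φ).1.trans h2, (hxy φ).2.trans h2⟩, he⟩
  · obtain ⟨c, hc1, hc2⟩ := hc s
    exact ⟨c, fun i φ => (hc1 i φ).trans (num_coeff h4 h2), hc2⟩
  · exact mul_le_mul_of_nonneg_right (num_value h4 ((le_max_right _ _).trans h1) h2 h3) (norm_nonneg _)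

theorem dom_open : IsOpen {l : ℂ | l ∈ Complex.slitPlane ∧ 1 - l ∈ Complex.slitPlane} :=
  (Complex.isOpen_slitPlane).inter ((Complex.isOpen_slitPlane).preimage (continuous_const.sub continuous_id))

/-- **Theorem.** -/
theorem result (n : ℕ) (a b : Fin n → Polynomial ℂ) (hb : ∀ j, b j ≠ 0)
    (hab : ∀ j, ∀ c : ℂ, a j ^ 3 ≠ Polynomial.C c * b j ^ 2) (X : Set ℂ) (hX : X.Countable) :
    (∀ (S : Set ℂ), IsCompact S → (∀ j, ∀ s ∈ S, 4 * (a j).eval s ^ 3 + 27 * (b j).eval s ^ 2 ≠ 0) →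
      ∀ (L : Set ℂ), IsCompact L → (∀ l ∈ L, l ∈ Complex.slitPlane ∧ 1 - l ∈ Complex.slitPlane) →
      ∀ (m g d : ℕ) (A ε : ℝ), 0 < ε → ∃ B : ℝ, ∀ θ : ℝ, 0 < θ →
      ∃ Z : Set (Fin n → ℂ), dimH Z ≤ ENNReal.ofReal ((2 * m * (n - 1 : ℕ) + ε) / θ) ∧
      ∀ z, z ∉ Z → ∀ (K : IntermediateField ℚ ℂ) [NumberField K], Module.finrank ℚ K ≤ m →
        ∀ ξ : Fin g → ℂ, (∀ i, ξ i ∈ X) → ∀ᶠ T : ℝ in atTop,
          ∀ t ∈ Exceptional a b d K (algebraMap K ℂ) ξ S L A B T, ∃ j, T ^ (-θ) < ‖((t j : K) : ℂ) - z j‖) ∧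
    ∃ Z : Set (Fin n → ℂ), dimH Z = 0 ∧
      ∀ z, z ∉ Z → (∀ i j, 4 * (a i).eval (z j) ^ 3 + 27 * (b i).eval (z j) ^ 2 ≠ 0) →
      ∀ (K : IntermediateField ℚ ℂ) [NumberField K] (g : ℕ) (ξ : Fin g → ℂ), (∀ i, ξ i ∈ X) → ∀ (d : ℕ) (A : ℝ)
        (L : Set ℂ), IsCompact L → (∀ l ∈ L, l ∈ Complex.slitPlane ∧ 1 - l ∈ Complex.slitPlane) →
        ∃ B θ : ℝ, 0 < θ ∧ ∀ᶠ T : ℝ in atTop,
          ∀ t ∈ Exceptional a b d K (algebraMap K ℂ) ξ Set.univ L A B T, ∃ j, T ^ (-θ) < ‖((t j : K) : ℂ) - z j‖ := by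
  constructor
  · intro S hS hS' L hL hL' m g d A ε hε
    obtain ⟨B, C, T₀, h⟩ := Pool.Agent.Q138.AJ.R5591bc.result m n g d a b hb hab S hS hS' L hL hL' (max A 0) ε hε
    refine ⟨max B 0 + 1, fun θ hθ => ?_⟩
    exact near_all (Ξ := Fin g → ℂ) {ξ | ∀ i, ξ i ∈ X} (Set.countable_pi fun _ => hX)
      (fun F _ _ ι ξ T => Exceptional a b d F ι ξ S L A (max B 0 + 1) T)
      (fun F _ _ ι ξ T => Exceptional a b d F ι ξ S L (max A 0) B T) (fun F _ _ ι T => Points F ι S T)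
      (fun F _ _ ι T x hx => hx.2) C T₀ (max 1 (2 ^ max B 0)) ε θ hε hθ (fun F _ _ hF ι ξ T hT => h F hF ι ξ T hT)
      fun F _ _ ι ξ T T' h1 h2 h3 => mono ι ξ h1 h2 h3
  · set Dom : Set ℂ := {l : ℂ | l ∈ Complex.slitPlane ∧ 1 - l ∈ Complex.slitPlane} with hDom
    set Ω : Set ℂ := {s | ∀ i, 4 * (a i).eval s ^ 3 + 27 * (b i).eval s ^ 2 ≠ 0} with hΩ
    have hΩo : IsOpen Ω := by
      have e : Ω = ⋂ i, {s | 4 * (a i).eval s ^ 3 + 27 * (b i).eval s ^ 2 ≠ 0} := by
        ext s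
        simp [hΩ]
      rw [e]
      refine isOpen_iInter_of_finite fun i => isOpen_ne_fun ?_ continuous_const
      exact (continuous_const.mul ((a i).continuous.pow 3)).add (continuous_const.mul ((b i).continuous.pow 2))
    have hcN := countN
    have hcX := hX.to_subtype
    let J : Type := {K : IntermediateField ℚ ℂ // NumberField K} × (Σ g : ℕ, Fin g → X) × ℕ × ℕ × ℕ
    obtain ⟨Z, hZ, hz⟩ := near_open (fun _ : Fin n => Ω) (fun _ => hΩo) (J := J) (fun i => i.1.1)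
      (fun i => algebraMap i.1.1 ℂ) (fun i B T => haveI := i.1.2
        Exceptional a b i.2.2.1 i.1.1 (algebraMap i.1.1 ℂ) (fun l => (i.2.1.2 l : ℂ)) Set.univ (inner Dom i.2.2.2.2)
          (i.2.2.2.1 : ℝ) B T) (by
        rintro ⟨⟨K, hK⟩, ⟨g, ξ⟩, d, A, l⟩ k
        obtain ⟨B, C, T₀, h⟩ := Pool.Agent.Q138.AJ.R5591bc.result (Module.finrank ℚ K) n g d a b hb hab (inner Ω k)
          (inner_compact Ω k) (fun j s hs => inner_sub Ω k hs j) (inner Dom l) (inner_compact Dom l)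
          (fun x hx => inner_sub Dom l hx) (max (A : ℝ) 0) 1 one_pos
        obtain ⟨c, hc⟩ := dimH_theta K (algebraMap K ℂ) (fun T => {s | s ∈ Exceptional a b d K (algebraMap K ℂ)
            (fun l => (ξ l : ℂ)) Set.univ (inner Dom l) (A : ℝ) (max B 0 + 1) T ∧ ∀ j, algebraMap K ℂ (s j) ∈ inner Ω k})
          (fun T => Exceptional a b d K (algebraMap K ℂ) (fun l => (ξ l : ℂ)) (inner Ω k) (inner Dom l) (max (A : ℝ) 0) B T)
          (fun T => Points K (algebraMap K ℂ) (inner Ω k) T) (fun T x hx => hx.2) C T₀ (max 1 (2 ^ max B 0))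
          (fun T hT => h K le_rfl _ _ T hT) (by
            intro T T' h1 h2 h3 t ht
            refine mono _ _ h1 h2 h3 ⟨fun j => ⟨ht.2 j, (ht.1.1 j).2⟩, ht.1.2⟩)
        exact ⟨max B 0 + 1, c, hc⟩)
    refine ⟨Z, hZ, fun z hzZ hzΩ K hK g ξ hξ d A L hL hL' => ?_⟩
    obtain ⟨l, hl⟩ := compact_inner dom_open hL hL'
    obtain ⟨B, θ, hθ, h⟩ := hz z hzZ (fun j i => hzΩ i j) (⟨K, hK⟩, ⟨g, fun i => ⟨ξ i, hξ i⟩⟩, d, ⌈A⌉₊, l)
    refine ⟨B, θ, hθ, ?_⟩
    filter_upwards [h, eventually_ge_atTop 1] with T hT hT1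
    intro t ht
    refine hT t ?_
    obtain ⟨hp, e, v, hev, P, hP, hc, hs⟩ := ht
    refine ⟨hp, e, v, fun j => ⟨(hev j).1, (hev j).2.1, hl (hev j).2.2⟩, P, hP, fun s => ?_, hs⟩
    obtain ⟨c, hc1, hc2⟩ := hc s
    exact ⟨c, fun i φ => (hc1 i φ).trans (Real.rpow_le_rpow_of_exponent_le hT1 (Nat.le_ceil A)), hc2⟩

end Pool.Agent.Results.MP_5591bc_ag.FibresNearGivenPoints
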